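import Pool.Agent.Helper185.Fat4

/-!
# A space with a `G_δ`-diagonal contains no perfect preimage of `ω₁`
-/

namespace Pool.Agent.Y243.ManN

open Set Topology Filter
open Pool.Agent.Helper185.Fat

/-- `F` has points at arbitrarily high levels. -/
def Big {Z : Type} (f : Z → Om1) (F : Set Z) : Prop := ∀ δ, ∃ z ∈ F, δ ≤ f z

section

variable {Z : Type} [TopologicalSpace Z] {f : Z → Om1}

theorem cluster (hc : ∀ δ, IsCompact (f ⁻¹' (Set.Iic δ))) (x : ℕ → Z) :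
    ∃ z, MapClusterPt z atTop x := by
  obtain ⟨γ, hγ⟩ := exists_gt (Set.countable_range (fun k => f (x k)))
  obtain ⟨z, _, hz⟩ := (hc γ).exists_mapClusterPt (f := atTop) (u := x) (by
    rw [Filter.le_principal_iff, Filter.mem_map]
    exact Filter.univ_mem' (fun k => (hγ _ ⟨k, rfl⟩).le))
  exact ⟨z, hz⟩

theorem mem_of_cluster {x : ℕ → Z} {z : Z} (hz : MapClusterPt z atTop x) {C : Set Z}
    (hC : IsClosed C) {j : ℕ} (h : ∀ k, j ≤ k → x k ∈ C) : z ∈ C := by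
  by_contra hcon
  have h1 := (mapClusterPt_iff_frequently.1 hz) Cᶜ (hC.isOpen_compl.mem_nhds hcon)
  have h2 : ∀ᶠ k in atTop, x k ∈ C := Filter.eventually_atTop.2 ⟨j, h⟩
  obtain ⟨k, hk1, hk2⟩ := (h1.and_eventually h2).exists
  exact hk1 hk2

theorem big_inter (hc : ∀ δ, IsCompact (f ⁻¹' (Set.Iic δ)))
    (hcl : ∀ δ, IsClosed (f ⁻¹' (Set.Ici δ))) {F : ℕ → Set Z} (hF : ∀ k, IsClosed (F k))
    (hb : ∀ k, Big f (F k)) (hd : ∀ j k, j ≤ k → F k ⊆ F j) : Big f (⋂ k, F k) := by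
  intro δ
  have h1 : ∀ k, ∃ z ∈ F k, δ ≤ f z := fun k => hb k δ
  choose x hx1 hx2 using h1
  obtain ⟨z, hz⟩ := cluster hc x
  refine ⟨z, ?_, ?_⟩
  · rw [Set.mem_iInter]
    intro j
    exact mem_of_cluster hz (hF j) (fun k hk => hd j k hk (hx1 k))
  · exact mem_of_cluster (j := 0) hz (hcl δ) (fun k _ => hx2 k)

theorem step (hc : ∀ δ, IsCompact (f ⁻¹' (Set.Iic δ))) {W : Set (Z × Z)} (hW : IsOpen W)
    (hd : ∀ z, (z, z) ∈ W) {F : Set Z} (hF : IsClosed F) (hb : Big f F) :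
    ∃ F', F' ⊆ F ∧ IsClosed F' ∧ Big f F' ∧
      ∀ x ∈ F', ∃ δ, ∀ z ∈ F', (x, z) ∉ W → f z < δ := by
  by_contra hcon
  push Not at hcon
  choose p hp1 hp2 using hcon
  let S : Type := {G : Set Z // G ⊆ F ∧ IsClosed G ∧ Big f G}
  let pt : S → Z := fun G => p G.1 G.2.1 G.2.2.1 G.2.2.2
  have hpt : ∀ G : S, pt G ∈ G.1 := fun G => hp1 G.1 G.2.1 G.2.2.1 G.2.2.2
  have hcont : ∀ G : S, Continuous (fun z : Z => (pt G, z)) := fun G => by fun_prop
  let nx : S → S := fun G => ⟨G.1 ∩ {z | (pt G, z) ∉ W},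
    Set.inter_subset_left.trans G.2.1,
    G.2.2.1.inter ((hW.preimage (hcont G)).isClosed_compl), fun δ => by
      obtain ⟨z, hz1, hz2, hz3⟩ := hp2 G.1 G.2.1 G.2.2.1 G.2.2.2 δ
      exact ⟨z, ⟨hz1, hz2⟩, hz3⟩⟩
  let G : ℕ → S := fun k => Nat.rec (motive := fun _ => S) ⟨F, subset_rfl, hF, hb⟩
    (fun _ y => nx y) k
  have hG : ∀ k, G (k + 1) = nx (G k) := fun k => rfl
  have hmono : ∀ i j, i ≤ j → (G j).1 ⊆ (G i).1 := by
    intro i j hij
    induction j, hij using Nat.le_induction with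
    | base => exact subset_rfl
    | succ j _ ih =>
      rw [hG]
      exact Set.inter_subset_left.trans ih
  have hno : ∀ i j, i < j → (pt (G i), pt (G j)) ∉ W := by
    intro i j hij
    have h1 : pt (G j) ∈ (G (i + 1)).1 := hmono (i + 1) j hij (hpt (G j))
    rw [hG] at h1
    exact h1.2
  obtain ⟨y, hy⟩ := cluster hc (fun k => pt (G k))
  obtain ⟨O, O2, hO1, hO2, hyO1, hyO2, hOO⟩ := isOpen_prod_iff.1 hW y y (hd y)
  have hfr := mapClusterPt_iff_frequently.1 hy (O ∩ O2)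
    ((hO1.inter hO2).mem_nhds ⟨hyO1, hyO2⟩)
  obtain ⟨i, hi⟩ := hfr.exists
  obtain ⟨j, hj, hij⟩ := (hfr.and_eventually (Filter.eventually_gt_atTop i)).exists
  exact hno i j hij (hOO ⟨hi.1, hj.2⟩)

/-- A space with a `G_δ`-diagonal does not map perfectly onto `ω₁`. -/
theorem no_perfect (hc : ∀ δ, IsCompact (f ⁻¹' (Set.Iic δ)))
    (hcl : ∀ δ, IsClosed (f ⁻¹' (Set.Ici δ))) (hsurj : Function.Surjective f)
    {W : ℕ → Set (Z × Z)} (hW : ∀ n, IsOpen (W n)) (hd : ⋂ n, W n = {p | p.1 = p.2}) :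
    False := by
  have hdn : ∀ n z, (z, z) ∈ W n := by
    intro n z
    have h1 : (z, z) ∈ ⋂ n, W n := by rw [hd]; rfl
    exact Set.mem_iInter.1 h1 n
  let S : Type := {G : Set Z // IsClosed G ∧ Big f G}
  have hst : ∀ (n : ℕ) (G : S), ∃ G' : S, G'.1 ⊆ G.1 ∧
      ∀ x ∈ G'.1, ∃ δ, ∀ z ∈ G'.1, (x, z) ∉ W n → f z < δ := by
    intro n G
    obtain ⟨F', h1, h2, h3, h4⟩ := step hc (hW n) (hdn n) G.2.1 G.2.2
    exact ⟨⟨F', h2, h3⟩, h1, h4⟩
  choose nx hnx1 hnx2 using hst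
  let G : ℕ → S := fun k => Nat.rec (motive := fun _ => S)
    ⟨Set.univ, isClosed_univ, fun δ => by
      obtain ⟨z, hz⟩ := hsurj δ
      exact ⟨z, Set.mem_univ z, hz.ge⟩⟩ (fun n y => nx n y) k
  have hG : ∀ k, G (k + 1) = nx k (G k) := fun k => rfl
  have hmono : ∀ i j, i ≤ j → (G j).1 ⊆ (G i).1 := by
    intro i j hij
    induction j, hij using Nat.le_induction with
    | base => exact subset_rfl
    | succ j _ ih =>
      rw [hG]
      exact (hnx1 j (G j)).trans ih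
  have hbig : Big f (⋂ k, (G k).1) :=
    big_inter hc hcl (fun k => (G k).2.1) (fun k => (G k).2.2) hmono
  obtain ⟨z₀, hz₀⟩ := hsurj om1_nonempty.some
  obtain ⟨x, hx, _⟩ := hbig (f z₀)
  have hx' : ∀ n, x ∈ (G n).1 := Set.mem_iInter.1 hx
  have hδ : ∀ n, ∃ δ, ∀ z ∈ (G (n + 1)).1, (x, z) ∉ W n → f z < δ := by
    intro n
    exact hnx2 n (G n) x (hx' (n + 1))
  choose δ hδ using hδ
  obtain ⟨γ, hγ⟩ := exists_gt ((Set.countable_range δ).union (Set.countable_singleton (f x)))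
  obtain ⟨z, hz, hγz⟩ := hbig γ
  have hz' : ∀ n, z ∈ (G n).1 := Set.mem_iInter.1 hz
  have h1 : (x, z) ∈ ⋂ n, W n := by
    rw [Set.mem_iInter]
    intro n
    by_contra hcon
    have h2 := hδ n z (hz' (n + 1)) hcon
    have h3 : δ n < γ := hγ _ (Or.inl ⟨n, rfl⟩)
    exact absurd (h2.trans h3) (not_lt.2 hγz)
  rw [hd] at h1
  have h2 : x = z := h1
  have h3 : f x < γ := hγ _ (Or.inr rfl)
  rw [h2] at h3
  exact absurd h3 (not_lt.2 hγz)

end

/-- A space with a `G_δ`-diagonal contains no perfect preimage of `ω₁`. -/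
theorem no_perfect_preimage_of_gdelta {M : Type} [TopologicalSpace M] {W : ℕ → Set (M × M)}
    (hW : ∀ n, IsOpen (W n)) (hd : ⋂ n, W n = {p | p.1 = p.2}) :
    ¬ ContainsPerfectPreimage M := by
  rintro ⟨Z, f, hsurj, hcont, hclosed, hfib⟩
  let _ := om1Top
  haveI : OrderTopology Om1 := ⟨rfl⟩
  have hproper : IsProperMap f := isProperMap_iff_isClosedMap_and_compact_fibers.2
    ⟨hcont, hclosed, hfib⟩
  have hcomp : ∀ δ, IsCompact (f ⁻¹' (Set.Iic δ)) := fun δ =>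
    hproper.isCompact_preimage (isCompact_Iic_om1 δ)
  have hcl : ∀ δ, IsClosed (f ⁻¹' (Set.Ici δ)) := fun δ => isClosed_Ici.preimage hcont
  have c1 : Continuous (fun p : Z × Z => ((p.1 : M), (p.2 : M))) := by fun_prop
  refine no_perfect hcomp hcl hsurj
    (W := fun n => (fun p : Z × Z => ((p.1 : M), (p.2 : M))) ⁻¹' W n)
    (fun n => (hW n).preimage c1) ?_
  rw [← Set.preimage_iInter, hd]
  ext ⟨a, b⟩
  exact Subtype.ext_iff.symm

end Pool.Agent.Y243.ManN
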