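import Pool.Agent.Y243.ManN.Prod
import Pool.Agent.Y243.ManN.Chaber

/-!
# Manifolds of all dimensions
-/

namespace Pool.Agent.Y243.ManN

open Set Topology
open Pool.Agent.Helper185.Man Pool.Agent.Helper185.Fat

/-- The properties of a factor `N` are inherited by the product with the example. -/
theorem all_dim : ∃ (M : Type) (_ : TopologicalSpace M),
    ∀ (k : ℕ) (N : Type) [TopologicalSpace N],
      IsMfd N k → MfdWeightLeAleph1 N k → HasGdeltaDiagonal N →
      IsMfd (M × N) (2 + k) ∧ MfdWeightLeAleph1 (M × N) (2 + k) ∧ HasGdeltaDiagonal (M × N) ∧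
        ¬ QuasiDevelopable (M × N) := by
  obtain ⟨M, _, h1, h2, h3, h4⟩ := exists_mfd
  refine ⟨M, inferInstance, fun k N _ g1 g2 g3 => ⟨mfd_prod h1 g1, weight_prod h2 g2,
    gd_prod h3 g3, ?_⟩⟩
  haveI := g1.1
  exact not_qd_prod h4

theorem locallyCompact_of_mfd {M : Type} [TopologicalSpace M] {n : ℕ} (h : IsMfd M n) :
    LocallyCompactSpace M := by
  haveI := h.2.1
  haveI : WeaklyLocallyCompactSpace M := by
    refine ⟨fun x => ?_⟩
    obtain ⟨U, hU, hx, ⟨e⟩⟩ := h.2.2 x
    haveI : LocallyCompactSpace U := e.isClosedEmbedding.locallyCompactSpace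
    obtain ⟨K, hK, hKx⟩ := exists_compact_mem_nhds (⟨x, hx⟩ : U)
    refine ⟨Subtype.val '' K, hK.image continuous_subtype_val, ?_⟩
    exact (hU.isOpenEmbedding_subtypeVal.image_mem_nhds (x := (⟨x, hx⟩ : U))).2 hKx
  infer_instance

theorem locallyMetrizable_of_mfd {M : Type} [TopologicalSpace M] {n : ℕ} (h : IsMfd M n) :
    LocallyMetrizable M := by
  intro x
  obtain ⟨U, hU, hx, ⟨e⟩⟩ := h.2.2 x
  exact ⟨U, hU, hx, e.isEmbedding.metrizableSpace⟩

theorem weight_of_mfd {M : Type} [TopologicalSpace M] {n : ℕ} (h : MfdWeightLeAleph1 M n) :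
    WeightLeAleph1 M := by
  obtain ⟨𝒰, h1, h2, h3⟩ := h
  haveI : ∀ U : 𝒰, SecondCountableTopology (U : Set M) := fun U => by
    obtain ⟨e⟩ := (h2 U U.2).2
    exact e.isEmbedding.secondCountableTopology
  have hb := TopologicalSpace.isTopologicalBasis_of_cover (U := fun U : 𝒰 => (U : Set M))
    (fun U => (h2 U U.2).1) (by rw [← Set.sUnion_eq_iUnion]; exact h3)
    (b := fun U => TopologicalSpace.countableBasis (U : Set M))
    (fun U => TopologicalSpace.isBasis_countableBasis (U : Set M))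
  refine ⟨_, hb, ?_⟩
  refine (Cardinal.mk_iUnion_le _).trans ?_
  refine Cardinal.mul_le_of_le (Cardinal.aleph0_le_aleph 1) h1 ?_
  refine ciSup_le' (fun U => ?_)
  exact (((TopologicalSpace.countable_countableBasis (U : Set M)).image _).le_aleph0).trans
    (Cardinal.aleph0_le_aleph 1)

end Pool.Agent.Y243.ManN
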