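import Mathlib
import Pool.Agent.Helper761.Moore

/-!
# Products of pseudocompact Moore manifolds with closed manifolds
-/

set_option autoImplicit false

namespace Pool.Agent.Y243.ManN

open Set Topology Filter

/-- `X` has a development. -/
def Dev (X : Type) [TopologicalSpace X] : Prop :=
  ∃ G : ℕ → Set (Set X), (∀ n, ∀ V ∈ G n, IsOpen V) ∧ (∀ n, ⋃₀ G n = Set.univ) ∧
    ∀ (x : X) (U : Set X), IsOpen U → x ∈ U → ∃ n, ⋃₀ {V ∈ G n | x ∈ V} ⊆ U

/-- Every point has an open neighbourhood homeomorphic to `ℝⁿ`. -/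
def LocEuclid (X : Type) [TopologicalSpace X] (n : ℕ) : Prop :=
  ∀ x : X, ∃ U : Set X, IsOpen U ∧ x ∈ U ∧ Nonempty (U ≃ₜ EuclideanSpace ℝ (Fin n))

theorem dev_prod {X Y : Type} [TopologicalSpace X] [TopologicalSpace Y] (hX : Dev X)
    (hY : Dev Y) : Dev (X × Y) := by
  obtain ⟨G, g1, g2, g3⟩ := hX
  obtain ⟨H, h1, h2, h3⟩ := hY
  refine ⟨fun n => {W | ∃ V ∈ G n.unpair.1, ∃ V' ∈ H n.unpair.2, W = V ×ˢ V'}, ?_, ?_, ?_⟩
  · rintro n W ⟨V, hV, V', hV', rfl⟩
    exact (g1 _ V hV).prod (h1 _ V' hV')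
  · intro n
    rw [Set.eq_univ_iff_forall]
    rintro ⟨x, y⟩
    have hx : x ∈ ⋃₀ G n.unpair.1 := by rw [g2]; exact Set.mem_univ x
    have hy : y ∈ ⋃₀ H n.unpair.2 := by rw [h2]; exact Set.mem_univ y
    obtain ⟨V, hV, hxV⟩ := hx
    obtain ⟨V', hV', hyV⟩ := hy
    exact ⟨V ×ˢ V', ⟨V, hV, V', hV', rfl⟩, ⟨hxV, hyV⟩⟩
  · rintro ⟨x, y⟩ U hU hxy
    obtain ⟨A, B, hA, hB, hxA, hyB, hAB⟩ := isOpen_prod_iff.1 hU x y hxy
    obtain ⟨i, hi⟩ := g3 x A hA hxA
    obtain ⟨j, hj⟩ := h3 y B hB hyB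
    refine ⟨Nat.pair i j, ?_⟩
    rintro ⟨a, b⟩ ⟨W, ⟨⟨V, hV, V', hV', rfl⟩, hW⟩, hab⟩
    rw [Nat.unpair_pair] at hV hV'
    exact hAB ⟨hi ⟨V, ⟨hV, hW.1⟩, hab.1⟩, hj ⟨V', ⟨hV', hW.2⟩, hab.2⟩⟩

theorem dev_metric (Y : Type) [MetricSpace Y] : Dev Y := by
  refine ⟨fun n => {V | ∃ y : Y, V = Metric.ball y (1 / (n + 1 : ℝ))}, ?_, ?_, ?_⟩
  · rintro n V ⟨y, rfl⟩
    exact Metric.isOpen_ball
  · intro n
    rw [Set.eq_univ_iff_forall]
    intro y
    exact ⟨_, ⟨y, rfl⟩, Metric.mem_ball_self (by positivity)⟩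
  · intro x U hU hx
    obtain ⟨ε, hε, hb⟩ := Metric.isOpen_iff.1 hU x hx
    obtain ⟨n, hn⟩ := exists_nat_one_div_lt (half_pos hε)
    refine ⟨n, ?_⟩
    rintro z ⟨_, ⟨⟨y, rfl⟩, hxy⟩, hzy⟩
    apply hb
    rw [Metric.mem_ball] at hxy hzy ⊢
    calc dist z x ≤ dist z y + dist x y := dist_triangle_right z x y
      _ < ε := by linarith

theorem bdd_prod {X K : Type} [TopologicalSpace X] [TopologicalSpace K] [CompactSpace K]
    (hX : ∀ f : X → ℝ, Continuous f → ∃ C : ℝ, ∀ x, |f x| ≤ C) (f : X × K → ℝ)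
    (hf : Continuous f) : ∃ C : ℝ, ∀ p, |f p| ≤ C := by
  have h1 : Continuous (fun x => sSup ((fun k => |f (x, k)|) '' (Set.univ : Set K))) :=
    isCompact_univ.continuous_sSup (f := fun x k => |f (x, k)|) (by
      show Continuous (fun p : X × K => |f (p.1, p.2)|)
      exact hf.abs)
  obtain ⟨C, hC⟩ := hX _ h1
  refine ⟨C, fun p => ?_⟩
  have hc : Continuous (fun k : K => |f (p.1, k)|) := by fun_prop
  have hb : BddAbove ((fun k => |f (p.1, k)|) '' (Set.univ : Set K)) :=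
    (isCompact_univ.image hc).bddAbove
  have h2 : |f (p.1, p.2)| ≤ sSup ((fun k => |f (p.1, k)|) '' (Set.univ : Set K)) :=
    le_csSup hb ⟨p.2, Set.mem_univ _, rfl⟩
  exact h2.trans ((le_abs_self _).trans (hC p.1))

theorem locEuclid_prod {X Y : Type} [TopologicalSpace X] [TopologicalSpace Y] {m k : ℕ}
    (hX : LocEuclid X m) (hY : LocEuclid Y k) : LocEuclid (X × Y) (m + k) := by
  rintro ⟨x, y⟩
  obtain ⟨U, u1, u2, ⟨e⟩⟩ := hX x
  obtain ⟨V, v1, v2, ⟨g⟩⟩ := hY y
  have L : (EuclideanSpace ℝ (Fin m) × EuclideanSpace ℝ (Fin k)) ≃L[ℝ]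
      EuclideanSpace ℝ (Fin (m + k)) := ContinuousLinearEquiv.ofFinrankEq (by simp)
  exact ⟨U ×ˢ V, u1.prod v1, ⟨u2, v2⟩,
    ⟨(Homeomorph.Set.prod U V).trans ((e.prodCongr g).trans L.toHomeomorph)⟩⟩

/-- The charts of a locally Euclidean space. -/
theorem locEuclid_charted {X : Type} [TopologicalSpace X] {n : ℕ} (h : LocEuclid X n) :
    Nonempty (ChartedSpace (EuclideanSpace ℝ (Fin n)) X) := by
  classical
  have h1 : ∀ x : X, ∃ c : OpenPartialHomeomorph X (EuclideanSpace ℝ (Fin n)),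
      x ∈ c.source := by
    intro x
    obtain ⟨U, hU, hx, ⟨e⟩⟩ := h x
    have hemb : IsOpenEmbedding (fun p : EuclideanSpace ℝ (Fin n) => ((e.symm p : U) : X)) :=
      hU.isOpenEmbedding_subtypeVal.comp e.symm.isOpenEmbedding
    refine ⟨(hemb.toOpenPartialHomeomorph _).symm, ?_⟩
    simp only [OpenPartialHomeomorph.symm_source]
    rw [IsOpenEmbedding.toOpenPartialHomeomorph_target]
    exact ⟨e ⟨x, hx⟩, by simp⟩
  choose c hc using h1
  exact ⟨{ atlas := Set.univ, chartAt := c, mem_chart_source := hc,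
           chart_mem_atlas := fun _ => Set.mem_univ _ }⟩

theorem locEuclid_locallyCompact {X : Type} [TopologicalSpace X] {n : ℕ}
    (h : LocEuclid X n) : LocallyCompactSpace X := by
  obtain ⟨c⟩ := locEuclid_charted h
  exact ChartedSpace.locallyCompactSpace (EuclideanSpace ℝ (Fin n)) X

theorem locEuclid_locallyConnected {X : Type} [TopologicalSpace X] {n : ℕ}
    (h : LocEuclid X n) : LocallyConnectedSpace X := by
  obtain ⟨c⟩ := locEuclid_charted h
  exact ChartedSpace.locallyConnectedSpace (EuclideanSpace ℝ (Fin n)) X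

theorem locEuclid_Sp (F : Pool.Agent.Helper761.Fam) :
    LocEuclid (Pool.Agent.Helper761.Sp F) 3 := by
  intro x
  have L : (ℂ × ℝ) ≃L[ℝ] EuclideanSpace ℝ (Fin 3) := Pool.Agent.Helper761.Sp.lin
  rcases Pool.Agent.Helper761.Sp.cover x with ⟨q, rfl⟩ | ⟨b, v, rfl⟩
  · have h := Pool.Agent.Helper761.Sp.jj_emb (F := F)
    exact ⟨_, h.isOpen_range, ⟨q, rfl⟩,
      ⟨h.isEmbedding.toHomeomorph.symm.trans L.toHomeomorph⟩⟩
  · have h := Pool.Agent.Helper761.Sp.ps_emb (F := F) b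
    exact ⟨_, h.isOpen_range, ⟨(v, 0), (Pool.Agent.Helper761.Sp.kk_eq b v).symm⟩,
      ⟨h.isEmbedding.toHomeomorph.symm.trans L.toHomeomorph⟩⟩

/-- A closed connected metrizable manifold of every dimension. -/
theorem exists_closed (k : ℕ) : ∃ (K : Type) (_ : MetricSpace K), CompactSpace K ∧
    ConnectedSpace K ∧ LocEuclid K k := by
  rcases Nat.eq_zero_or_pos k with rfl | hk
  · refine ⟨EuclideanSpace ℝ (Fin 0), inferInstance, inferInstance, inferInstance, ?_⟩
    intro x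
    exact ⟨Set.univ, isOpen_univ, Set.mem_univ x, ⟨Homeomorph.Set.univ _⟩⟩
  · haveI : Fact (Module.finrank ℝ (EuclideanSpace ℝ (Fin (k + 1))) = k + 1) := ⟨by simp⟩
    refine ⟨Metric.sphere (0 : EuclideanSpace ℝ (Fin (k + 1))) 1, inferInstance,
      isCompact_iff_compactSpace.1 (isCompact_sphere _ _), ?_, ?_⟩
    · rw [← isConnected_iff_connectedSpace]
      refine isConnected_sphere ?_ _ zero_le_one
      rw [← Module.finrank_eq_rank, finrank_euclideanSpace, Fintype.card_fin]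
      exact_mod_cast (by omega : 1 < k + 1)
    · intro x
      let c := stereographic' (E := EuclideanSpace ℝ (Fin (k + 1))) k (-x)
      refine ⟨c.source, c.open_source, ?_, ?_⟩
      · rw [stereographic'_source]
        intro hx
        have h1 : x = -x := hx
        exact absurd h1 (ne_neg_of_mem_unit_sphere ℝ x)
      · have ht : c.target = Set.univ := stereographic'_target (-x)
        have e1 := c.toHomeomorphSourceTarget
        rw [ht] at e1
        exact ⟨e1.trans (Homeomorph.Set.univ _)⟩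

/-- The properties of the product of the example with a closed manifold. -/
theorem moore_manifold (F : Pool.Agent.Helper761.Fam) (b : F.I) (k : ℕ) (K : Type)
    [MetricSpace K] [CompactSpace K] [ConnectedSpace K] (hK : LocEuclid K k) :
    Dev (Pool.Agent.Helper761.Sp F × K) ∧
    (∀ f : Pool.Agent.Helper761.Sp F × K → ℝ, Continuous f → ∃ C : ℝ, ∀ x, |f x| ≤ C) ∧
    ¬ NormalSpace (Pool.Agent.Helper761.Sp F × K) ∧
    LocEuclid (Pool.Agent.Helper761.Sp F × K) (3 + k) ∧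
    TopologicalSpace.SeparableSpace (Pool.Agent.Helper761.Sp F × K) ∧
    ∃ u : ℕ → Pool.Agent.Helper761.Sp F × K, ∀ x, ¬ MapClusterPt x atTop u := by
  obtain ⟨y⟩ : Nonempty K := inferInstance
  have hS : ∀ f : Pool.Agent.Helper761.Sp F → ℝ, Continuous f → ∃ C : ℝ, ∀ x, |f x| ≤ C := by
    intro f hf
    obtain ⟨C1, h1⟩ := Pool.Agent.Helper761.Sp.bddAbove_of_continuous hf
    obtain ⟨C2, h2⟩ := Pool.Agent.Helper761.Sp.bddAbove_of_continuous hf.neg
    refine ⟨max C1 C2, fun x => abs_le.mpr ⟨?_, (h1 ⟨x, rfl⟩).trans (le_max_left _ _)⟩⟩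
    have h3 : -f x ≤ C2 := h2 ⟨x, rfl⟩
    have h4 := le_max_right C1 C2
    linarith
  refine ⟨dev_prod ⟨Pool.Agent.Helper761.Sp.cov F,
    fun n V hV => Pool.Agent.Helper761.Sp.isOpen_of_mem_cov hV,
    Pool.Agent.Helper761.Sp.sUnion_cov,
    fun x U hU hx => Pool.Agent.Helper761.Sp.star_cov x hU hx⟩ (dev_metric K),
    fun f hf => bdd_prod hS f hf, ?_, locEuclid_prod (locEuclid_Sp F) hK, ?_, ?_⟩
  · intro hn
    refine Pool.Agent.Helper761.Sp.not_normal F ?_
    have h1 : IsClosedEmbedding (fun x : Pool.Agent.Helper761.Sp F => (x, y)) := by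
      refine ⟨isEmbedding_prodMkLeft y, ?_⟩
      have h2 : Set.range (fun x : Pool.Agent.Helper761.Sp F => (x, y)) =
          Prod.snd ⁻¹' {y} := by
        ext ⟨a, c⟩
        constructor
        · rintro ⟨x, hx⟩
          exact (congrArg Prod.snd hx).symm
        · intro hc
          exact ⟨a, by rw [show c = y from hc]⟩
      rw [h2]
      exact isClosed_singleton.preimage continuous_snd
    exact h1.normalSpace
  · haveI : TopologicalSpace.SeparableSpace (Pool.Agent.Helper761.Sp F) :=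
      (Pool.Agent.Helper761.Sp.dense_range_jj (F := F)).separableSpace
        Pool.Agent.Helper761.Sp.jj_cont
    infer_instance
  · refine ⟨fun n => (Pool.Agent.Helper761.Sp.kk b (n : ℂ), y), fun x hx => ?_⟩
    have h1 := hx.continuousAt_comp (f := Prod.fst) continuous_fst.continuousAt
    exact Pool.Agent.Helper761.Sp.no_cluster b x.1 h1

end Pool.Agent.Y243.ManN
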