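import Pool.Agent.Helper185.Man8

/-!
# Products of manifolds with a `G_δ`-diagonal
-/

namespace Pool.Agent.Y243.ManN

open Set Topology
open Pool.Agent.Helper185.Man Pool.Agent.Helper185.Fat

/-- Subspaces of quasi-developable spaces are quasi-developable. -/
theorem qd_of_embedding {X Y : Type} [TopologicalSpace X] [TopologicalSpace Y] {f : X → Y}
    (hf : IsEmbedding f) (h : QuasiDevelopable Y) : QuasiDevelopable X := by
  obtain ⟨𝒢, h1, h2⟩ := h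
  refine ⟨fun n => (fun G => f ⁻¹' G) '' 𝒢 n, ?_, ?_⟩
  · rintro n _ ⟨G, hG, rfl⟩
    exact (h1 n G hG).preimage hf.continuous
  · intro x U hU hx
    obtain ⟨V, hV, rfl⟩ := hf.isInducing.isOpen_iff.1 hU
    obtain ⟨n, h3, h4⟩ := h2 (f x) V hV hx
    refine ⟨n, ?_, ?_⟩
    · obtain ⟨G, ⟨hG, hxG⟩, _⟩ := h3
      exact ⟨f ⁻¹' G, ⟨⟨G, hG, rfl⟩, hxG⟩, hxG⟩
    · rintro y ⟨_, ⟨⟨G, hG, rfl⟩, hxG⟩, hyG⟩
      exact h4 ⟨G, ⟨hG, hxG⟩, hyG⟩

/-- Products of two spaces with a `G_δ`-diagonal have one. -/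
theorem gd_prod {X Y : Type} [TopologicalSpace X] [TopologicalSpace Y]
    (hX : HasGdeltaDiagonal X) (hY : HasGdeltaDiagonal Y) : HasGdeltaDiagonal (X × Y) := by
  obtain ⟨V, v1, v2⟩ := hX
  obtain ⟨W, w1, w2⟩ := hY
  refine ⟨fun n => {p | (p.1.1, p.2.1) ∈ V n ∧ (p.1.2, p.2.2) ∈ W n}, ?_, ?_⟩
  · intro n
    have c1 : Continuous (fun p : (X × Y) × (X × Y) => (p.1.1, p.2.1)) := by fun_prop
    have c2 : Continuous (fun p : (X × Y) × (X × Y) => (p.1.2, p.2.2)) := by fun_prop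
    exact ((v1 n).preimage c1).inter ((w1 n).preimage c2)
  · ext ⟨⟨a, b⟩, ⟨c, d⟩⟩
    have hv : (a, c) ∈ ⋂ n, V n ↔ a = c := by rw [v2]; rfl
    have hw : (b, d) ∈ ⋂ n, W n ↔ b = d := by rw [w2]; rfl
    rw [mem_iInter] at hv hw
    rw [mem_iInter]
    constructor
    · intro h
      have h1 := hv.1 (fun n => (h n).1)
      have h2 := hw.1 (fun n => (h n).2)
      show (a, b) = (c, d)
      rw [h1, h2]
    · intro h
      have h' : (a, b) = (c, d) := h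
      rw [Prod.mk.injEq] at h'
      exact fun n => ⟨hv.2 h'.1 n, hw.2 h'.2 n⟩

theorem chart_prod {X Y : Type} [TopologicalSpace X] [TopologicalSpace Y] {m k : ℕ}
    {U : Set X} {V : Set Y} (hU : Nonempty (U ≃ₜ EuclideanSpace ℝ (Fin m)))
    (hV : Nonempty (V ≃ₜ EuclideanSpace ℝ (Fin k))) :
    Nonempty ((U ×ˢ V : Set (X × Y)) ≃ₜ EuclideanSpace ℝ (Fin (m + k))) := by
  obtain ⟨e⟩ := hU
  obtain ⟨g⟩ := hV
  have L : (EuclideanSpace ℝ (Fin m) × EuclideanSpace ℝ (Fin k)) ≃L[ℝ]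
      EuclideanSpace ℝ (Fin (m + k)) := ContinuousLinearEquiv.ofFinrankEq (by simp)
  exact ⟨(Homeomorph.Set.prod U V).trans ((e.prodCongr g).trans L.toHomeomorph)⟩

theorem mfd_prod {X Y : Type} [TopologicalSpace X] [TopologicalSpace Y] {m k : ℕ}
    (hX : IsMfd X m) (hY : IsMfd Y k) : IsMfd (X × Y) (m + k) := by
  obtain ⟨h1, h2, h3⟩ := hX
  obtain ⟨g1, g2, g3⟩ := hY
  refine ⟨inferInstance, inferInstance, ?_⟩
  rintro ⟨x, y⟩
  obtain ⟨U, u1, u2, u3⟩ := h3 x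
  obtain ⟨V, v1, v2, v3⟩ := g3 y
  exact ⟨U ×ˢ V, u1.prod v1, ⟨u2, v2⟩, chart_prod u3 v3⟩

theorem weight_prod {X Y : Type} [TopologicalSpace X] [TopologicalSpace Y] {m k : ℕ}
    (hX : MfdWeightLeAleph1 X m) (hY : MfdWeightLeAleph1 Y k) :
    MfdWeightLeAleph1 (X × Y) (m + k) := by
  obtain ⟨𝒰, c1, u1, u2⟩ := hX
  obtain ⟨𝒱, d1, v1, v2⟩ := hY
  refine ⟨Set.range (fun p : 𝒰 × 𝒱 => (p.1 : Set X) ×ˢ (p.2 : Set Y)), ?_, ?_, ?_⟩
  · refine Cardinal.mk_range_le.trans ?_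
    rw [Cardinal.mk_prod]
    simp only [Cardinal.lift_id]
    exact Cardinal.mul_le_of_le (Cardinal.aleph0_le_aleph 1) c1 d1
  · rintro _ ⟨⟨U, V⟩, rfl⟩
    exact ⟨(u1 U U.2).1.prod (v1 V V.2).1, chart_prod (u1 U U.2).2 (v1 V V.2).2⟩
  · rw [Set.eq_univ_iff_forall]
    rintro ⟨x, y⟩
    have hx : x ∈ ⋃₀ 𝒰 := u2 ▸ Set.mem_univ x
    have hy : y ∈ ⋃₀ 𝒱 := v2 ▸ Set.mem_univ y
    obtain ⟨U, hU, hxU⟩ := hx
    obtain ⟨V, hV, hyV⟩ := hy
    exact ⟨U ×ˢ V, ⟨(⟨U, hU⟩, ⟨V, hV⟩), rfl⟩, ⟨hxU, hyV⟩⟩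

theorem not_qd_prod {X Y : Type} [TopologicalSpace X] [TopologicalSpace Y] [Nonempty Y]
    (h : ¬ QuasiDevelopable X) : ¬ QuasiDevelopable (X × Y) := by
  intro hq
  obtain ⟨y⟩ := ‹Nonempty Y›
  exact h (qd_of_embedding (isEmbedding_prodMkLeft y) hq)

/-- Euclidean space has all the properties. -/
theorem euclid (k : ℕ) : IsMfd (EuclideanSpace ℝ (Fin k)) k ∧
    MfdWeightLeAleph1 (EuclideanSpace ℝ (Fin k)) k ∧
    HasGdeltaDiagonal (EuclideanSpace ℝ (Fin k)) := by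
  refine ⟨⟨inferInstance, inferInstance, fun x => ⟨Set.univ, isOpen_univ, Set.mem_univ x,
    ⟨Homeomorph.Set.univ _⟩⟩⟩, ⟨{Set.univ}, ?_, ?_, Set.sUnion_singleton _⟩, ?_⟩
  · rw [Cardinal.mk_singleton]
    exact Cardinal.one_le_aleph0.trans (Cardinal.aleph0_le_aleph 1)
  · rintro U hU
    rw [Set.mem_singleton_iff] at hU
    subst hU
    exact ⟨isOpen_univ, ⟨Homeomorph.Set.univ _⟩⟩
  · refine ⟨fun n => {p | dist p.1 p.2 < 1 / (n + 1 : ℝ)}, ?_, ?_⟩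
    · intro n
      exact isOpen_lt (by fun_prop) continuous_const
    · ext ⟨a, b⟩
      rw [mem_iInter]
      constructor
      · intro h
        by_contra hab
        have h1 : 0 < dist a b := dist_pos.2 hab
        obtain ⟨n, hn⟩ := exists_nat_one_div_lt h1
        exact absurd (h n) (not_lt.2 hn.le)
      · intro h n
        have h' : a = b := h
        subst h'
        show dist a a < _
        rw [dist_self]
        positivity

end Pool.Agent.Y243.ManN
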